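import Mathlib

/-!
Sets of `𝔽₂ⁿ` meeting every coset of small codimension: for every probability weight on the
nonzero characters some element of the set is detected by a weight `δ` of the characters.
-/

set_option autoImplicit false

open Finset Module

namespace Pool.Agent.Work.MP_cf8024_co

variable {n : ℕ}

/-- `Y` meets every coset of codimension at most `C`. -/
def Blocking (C : ℕ) (Y : Finset (Fin n → ZMod 2)) : Prop :=
  ∀ V : Submodule (ZMod 2) (Fin n → ZMod 2), n ≤ finrank (ZMod 2) V + C →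
    ∀ x : Fin n → ZMod 2, ∃ v ∈ V, x + v ∈ Y

/-- The kernel of the character `ξ`. -/
def kerv (ξ : Fin n → ZMod 2) : Submodule (ZMod 2) (Fin n → ZMod 2) :=
  LinearMap.ker (dotProductBilin (ZMod 2) (ZMod 2) ξ)

theorem mem_kerv (ξ y : Fin n → ZMod 2) : y ∈ kerv ξ ↔ ξ ⬝ᵥ y = 0 := by
  simp [kerv]

theorem zmod2_cases (a : ZMod 2) : a = 0 ∨ a = 1 := by
  revert a; decide

theorem finrank_inf_kerv (V : Submodule (ZMod 2) (Fin n → ZMod 2)) (ξ : Fin n → ZMod 2)
    (h : ¬ V ≤ kerv ξ) : finrank (ZMod 2) ↥(V ⊓ kerv ξ) + 1 = finrank (ZMod 2) V := by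
  obtain ⟨z, hz, hz'⟩ := SetLike.not_le_iff_exists.mp h
  have h1 : z ∉ V ⊓ kerv ξ := fun hh => hz' hh.2
  have h2 : (V ⊓ kerv ξ) ⊔ Submodule.span (ZMod 2) {z} = V := by
    apply le_antisymm
    · exact sup_le inf_le_left ((Submodule.span_singleton_le_iff_mem _ _).mpr hz)
    · intro v hv
      rw [mem_kerv] at hz'
      have hz1 : ξ ⬝ᵥ z = 1 := (zmod2_cases _).resolve_left hz'
      rcases zmod2_cases (ξ ⬝ᵥ v) with h0 | h0
      · exact Submodule.mem_sup_left ⟨hv, (mem_kerv _ _).mpr h0⟩
      · have : v = (v - z) + z := by abel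
        rw [this]
        apply Submodule.add_mem_sup
        · exact ⟨V.sub_mem hv hz, (mem_kerv _ _).mpr (by rw [dotProduct_sub, h0, hz1, sub_self])⟩
        · exact Submodule.mem_span_singleton_self z
  have := Submodule.finrank_sup_span_singleton h1
  rw [h2] at this
  omega

open Classical in
/-- The weight of the characters vanishing on `U`. -/
noncomputable def perpW (w : (Fin n → ZMod 2) → ℝ) (U : Submodule (ZMod 2) (Fin n → ZMod 2)) : ℝ :=
  ∑ ξ, if U ≤ kerv ξ then w ξ else 0

/-- The weight of the characters detecting `y`. -/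
noncomputable def oddW (w : (Fin n → ZMod 2) → ℝ) (y : Fin n → ZMod 2) : ℝ :=
  ∑ ξ, if ξ ⬝ᵥ y = 0 then 0 else w ξ

open Classical in
/-- The mass of a subspace. -/
noncomputable def mass (μ : (Fin n → ZMod 2) → ℝ) (U : Submodule (ZMod 2) (Fin n → ZMod 2)) : ℝ :=
  ∑ y, if y ∈ U then μ y else 0

theorem finrank_top' : finrank (ZMod 2) (⊤ : Submodule (ZMod 2) (Fin n → ZMod 2)) = n := by
  rw [finrank_top]; simp

theorem perpW_top (w : (Fin n → ZMod 2) → ℝ) (hw0 : w 0 = 0) : perpW w ⊤ = 0 := by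
  unfold perpW
  apply Finset.sum_eq_zero
  intro ξ _
  split_ifs with h
  · have : ξ = 0 := by
      funext i
      have := (mem_kerv ξ (Pi.single i 1)).mp (h Submodule.mem_top)
      simpa using this
    rw [this, hw0]
  · rfl

theorem perpW_le {C : ℕ} {Y : Finset (Fin n → ZMod 2)} (hY : Blocking C Y)
    (w : (Fin n → ZMod 2) → ℝ) (hw : ∀ ξ, 0 ≤ w ξ) (hw0 : w 0 = 0) (δ : ℝ) (hδ : 0 ≤ δ)
    (hodd : ∀ y ∈ Y, oddW w y ≤ δ) (k : ℕ) :
    k ≤ C → ∀ V : Submodule (ZMod 2) (Fin n → ZMod 2), n ≤ finrank (ZMod 2) V + k →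
      perpW w V ≤ k * δ := by
  induction k with
  | zero =>
    intro _ V hV
    have : V = ⊤ := by
      apply Submodule.eq_top_of_finrank_eq
      have := Submodule.finrank_le V
      simp at this hV ⊢
      omega
    rw [this, perpW_top w hw0]; simp
  | succ k ih =>
    intro hk V hV
    by_cases hT : V = ⊤
    · rw [hT, perpW_top w hw0]; positivity
    obtain ⟨x, -, hx⟩ := SetLike.exists_of_lt (lt_top_iff_ne_top.mpr hT)
    obtain ⟨v, hv, hxv⟩ := hY V (by omega) x
    have hy : x + v ∉ V := fun h => hx (by simpa using V.sub_mem h hv)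
    have hr := Submodule.finrank_sup_span_singleton hy
    have h1 := ih (by omega) (V ⊔ Submodule.span (ZMod 2) {x + v}) (by omega)
    have h2 := hodd _ hxv
    have h3 : perpW w V ≤ perpW w (V ⊔ Submodule.span (ZMod 2) {x + v}) + oddW w (x + v) := by
      unfold perpW oddW
      rw [← Finset.sum_add_distrib]
      apply Finset.sum_le_sum
      intro ξ _
      have := hw ξ
      by_cases a1 : V ≤ kerv ξ
      · by_cases a2 : ξ ⬝ᵥ (x + v) = 0
        · rw [if_pos a1, if_pos a2, if_pos]
          · linarith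
          · exact sup_le a1 ((Submodule.span_singleton_le_iff_mem _ _).mpr
              ((mem_kerv _ _).mpr a2))
        · rw [if_pos a1, if_neg a2]
          split_ifs <;> linarith
      · rw [if_neg a1]
        split_ifs <;> linarith
    push_cast
    linarith

theorem mass_nonneg (μ : (Fin n → ZMod 2) → ℝ) (hμ : ∀ y, 0 ≤ μ y)
    (U : Submodule (ZMod 2) (Fin n → ZMod 2)) : 0 ≤ mass μ U := by
  unfold mass
  apply Finset.sum_nonneg
  intro y _
  split_ifs
  · exact hμ y
  · exact le_rfl

/-- A probability weight on `Y ∩ (x + V)` giving small mass to every subspace whose annihilator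
has weight at least one half. -/
theorem exists_spread {C : ℕ} {Y : Finset (Fin n → ZMod 2)} (hY : Blocking C Y)
    (w : (Fin n → ZMod 2) → ℝ) (hw : ∀ ξ, 0 ≤ w ξ) (hw1 : ∑ ξ, w ξ = 1)
    (hperp : ∀ V : Submodule (ZMod 2) (Fin n → ZMod 2), n ≤ finrank (ZMod 2) V + C →
      perpW w V ≤ 1 / 4) (t : ℕ) :
    ∀ (V : Submodule (ZMod 2) (Fin n → ZMod 2)) (x : Fin n → ZMod 2),
      n + t ≤ finrank (ZMod 2) V + C →
      ∃ μ : (Fin n → ZMod 2) → ℝ, (∀ y, 0 ≤ μ y) ∧ ∑ y, μ y = 1 ∧
        (∀ y, μ y ≠ 0 → y ∈ Y ∧ y - x ∈ V) ∧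
        ∀ U, 1 / 2 ≤ perpW w U → mass μ U ≤ (7 / 8) ^ t := by
  classical
  induction t with
  | zero =>
    intro V x hV
    obtain ⟨v, hv, hxv⟩ := hY V (by omega) x
    refine ⟨Pi.single (x + v) 1, ?_, by simp, ?_, ?_⟩
    · intro y
      rw [Pi.single_apply]
      split_ifs <;> norm_num
    · intro y hy
      have : y = x + v := by
        by_contra h
        exact hy (Pi.single_eq_of_ne h _)
      rw [this]
      exact ⟨hxv, by simpa using hv⟩
    · intro U _
      rw [pow_zero]
      calc mass (Pi.single (x + v) 1) U ≤ ∑ y, (Pi.single (x + v) (1 : ℝ) : _ → ℝ) y := by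
            unfold mass
            apply Finset.sum_le_sum
            intro y _
            split_ifs
            · exact le_rfl
            · rw [Pi.single_apply]; split_ifs <;> norm_num
        _ = 1 := by simp
  | succ t ih =>
    intro V x hV
    have hstep : ∀ η : Fin n → ZMod 2, ∃ μ : (Fin n → ZMod 2) → ℝ,
        (∀ y, 0 ≤ μ y) ∧ ∑ y, μ y = 1 ∧ (∀ y, μ y ≠ 0 → y ∈ Y ∧ y - x ∈ V) ∧
        ∀ U, 1 / 2 ≤ perpW w U → mass μ U ≤ (7 / 8) ^ t ∧
          (U ≤ kerv η → ¬ V ≤ kerv η → mass μ U ≤ (7 / 8) ^ t / 2) := by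
      intro η
      by_cases hη : V ≤ kerv η
      · obtain ⟨μ, h1, h2, h3, h4⟩ := ih V x (by omega)
        exact ⟨μ, h1, h2, h3, fun U hU => ⟨h4 U hU, fun _ h => absurd hη h⟩⟩
      · have hr := finrank_inf_kerv V η hη
        obtain ⟨z, hz, hz'⟩ := SetLike.not_le_iff_exists.mp hη
        rw [mem_kerv] at hz'
        have hz1 : η ⬝ᵥ z = 1 := (zmod2_cases _).resolve_left hz'
        obtain ⟨μ0, a1, a2, a3, a4⟩ := ih (V ⊓ kerv η) x (by omega)
        obtain ⟨μ1, b1, b2, b3, b4⟩ := ih (V ⊓ kerv η) (x + z) (by omega)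
        have hm : ∀ U, mass (fun y => (μ0 y + μ1 y) / 2) U = (mass μ0 U + mass μ1 U) / 2 := by
          intro U
          unfold mass
          rw [← Finset.sum_add_distrib, Finset.sum_div]
          apply Finset.sum_congr rfl
          intro y _
          split_ifs <;> simp
        refine ⟨fun y => (μ0 y + μ1 y) / 2, ?_, ?_, ?_, ?_⟩
        · intro y
          have := a1 y
          have := b1 y
          positivity
        · rw [← Finset.sum_div, Finset.sum_add_distrib, a2, b2]; norm_num
        · intro y hy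
          by_cases h0 : μ0 y = 0
          · have h1 : μ1 y ≠ 0 := by
              intro h1; apply hy; simp [h0, h1]
            obtain ⟨c1, c2⟩ := b3 y h1
            refine ⟨c1, ?_⟩
            have : y - x = (y - (x + z)) + z := by abel
            rw [this]
            exact V.add_mem c2.1 hz
          · exact ⟨(a3 y h0).1, (a3 y h0).2.1⟩
        · intro U hU
          have e0 := a4 U hU
          have e1 := b4 U hU
          rw [hm]
          refine ⟨by linarith, fun hUη _ => ?_⟩
          have hzero : ∀ (μ : (Fin n → ZMod 2) → ℝ) (x' : Fin n → ZMod 2), η ⬝ᵥ x' = 1 →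
              (∀ y, μ y ≠ 0 → y ∈ Y ∧ y - x' ∈ V ⊓ kerv η) → mass μ U = 0 := by
            intro μ x' hx' hμ
            unfold mass
            apply Finset.sum_eq_zero
            intro y _
            split_ifs with hyU
            · by_contra hne
              have c1 := (mem_kerv _ _).mp (hμ y hne).2.2
              have c2 := (mem_kerv _ _).mp (hUη hyU)
              rw [dotProduct_sub, c2, hx'] at c1
              exact absurd c1 (by decide)
            · rfl
          rcases zmod2_cases (η ⬝ᵥ x) with h0 | h0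
          · rw [hzero μ1 (x + z) (by rw [dotProduct_add, h0, hz1, zero_add]) b3]
            linarith
          · rw [hzero μ0 x h0 a3]
            linarith
    choose ν hν1 hν2 hν3 hν4 using hstep
    refine ⟨fun y => ∑ η, w η * ν η y, ?_, ?_, ?_, ?_⟩
    · intro y
      exact Finset.sum_nonneg fun η _ => mul_nonneg (hw η) (hν1 η y)
    · rw [Finset.sum_comm]
      simp only [← Finset.mul_sum, hν2, mul_one, hw1]
    · intro y hy
      obtain ⟨η, -, hη⟩ := Finset.exists_ne_zero_of_sum_ne_zero hy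
      exact hν3 η y (right_ne_zero_of_mul hη)
    · intro U hU
      have hm : mass (fun y => ∑ η, w η * ν η y) U = ∑ η, w η * mass (ν η) U := by
        unfold mass
        simp only [Finset.mul_sum]
        rw [Finset.sum_comm]
        apply Finset.sum_congr rfl
        intro y _
        split_ifs <;> simp
      have hV' := hperp V (by omega)
      have hp : (0 : ℝ) < (7 / 8) ^ t := by positivity
      have hb : ∑ η, w η * mass (ν η) U ≤ ∑ η, (7 / 8) ^ t * (w η -
          (if U ≤ kerv η then w η else 0) / 2 + (if V ≤ kerv η then w η else 0) / 2) := by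
        apply Finset.sum_le_sum
        intro η _
        obtain ⟨c1, c2⟩ := hν4 η U hU
        have hwη := hw η
        by_cases d1 : U ≤ kerv η <;> by_cases d2 : V ≤ kerv η
        · rw [if_pos d1, if_pos d2]; nlinarith
        · rw [if_pos d1, if_neg d2]
          have := c2 d1 d2
          nlinarith
        · rw [if_neg d1, if_pos d2]; nlinarith
        · rw [if_neg d1, if_neg d2]; nlinarith
      rw [← Finset.mul_sum, Finset.sum_add_distrib, Finset.sum_sub_distrib, ← Finset.sum_div,
        ← Finset.sum_div, hw1] at hb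
      change _ ≤ (7 / 8) ^ t * (1 - perpW w U / 2 + perpW w V / 2) at hb
      rw [hm, pow_succ]
      nlinarith

/-- The main estimate on blocking sets. -/
theorem exists_odd {C : ℕ} {Y : Finset (Fin n → ZMod 2)} (hY : Blocking C Y)
    (w : (Fin n → ZMod 2) → ℝ) (hw : ∀ ξ, 0 ≤ w ξ) (hw0 : w 0 = 0) (hw1 : ∑ ξ, w ξ = 1)
    (δ : ℝ) (hδ : 0 < δ) (hδ2 : 2 * δ < 1) (hC : C * δ ≤ 1 / 4)
    (hbig : (7 / 8 : ℝ) ^ C < (1 - 2 * δ) ^ n) : ∃ y ∈ Y, δ < oddW w y := by
  classical
  by_contra hcon
  push Not at hcon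
  have hperp : ∀ V : Submodule (ZMod 2) (Fin n → ZMod 2), n ≤ finrank (ZMod 2) V + C →
      perpW w V ≤ 1 / 4 := fun V hV =>
    (perpW_le hY w hw hw0 δ hδ.le hcon C le_rfl V hV).trans hC
  obtain ⟨μ, h1, h2, h3, h4⟩ := exists_spread hY w hw hw1 hperp C ⊤ 0
    (by rw [finrank_top'])
  set θ := 1 - 2 * δ with hθ
  have hθ0 : 0 < θ := by linarith
  have hθ1 : θ ≤ 1 := by linarith
  obtain ⟨U, hU⟩ := Finite.exists_max
    (fun U : Submodule (ZMod 2) (Fin n → ZMod 2) => mass μ U * θ ^ finrank (ZMod 2) U)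
  have hU0 := mass_nonneg μ h1 U
  have hlow : θ ^ n ≤ mass μ U := by
    have a := hU ⊤
    have b : mass μ ⊤ = 1 := by
      unfold mass; simpa using h2
    rw [b, finrank_top', one_mul] at a
    exact a.trans (mul_le_of_le_one_right hU0 (pow_le_one₀ hθ0.le hθ1))
  have hpos : 0 < mass μ U := lt_of_lt_of_le (pow_pos hθ0 n) hlow
  have hcut : ∀ ξ, ¬ U ≤ kerv ξ →
      2 * δ * mass μ U ≤ ∑ y, if y ∈ U then (if ξ ⬝ᵥ y = 0 then 0 else μ y) else 0 := by
    intro ξ hξ
    have hr := finrank_inf_kerv U ξ hξ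
    have a := hU (U ⊓ kerv ξ)
    rw [← hr, pow_succ, ← mul_assoc, mul_right_comm] at a
    have a' := le_of_mul_le_mul_right a (pow_pos hθ0 _)
    have b : mass μ U = mass μ (U ⊓ kerv ξ) +
        ∑ y, if y ∈ U then (if ξ ⬝ᵥ y = 0 then 0 else μ y) else 0 := by
      unfold mass
      rw [← Finset.sum_add_distrib]
      apply Finset.sum_congr rfl
      intro y _
      by_cases c1 : y ∈ U <;> by_cases c2 : ξ ⬝ᵥ y = 0 <;> simp [c1, c2, mem_kerv]
    rw [hθ] at a'
    linarith
  have hsum : ∑ ξ, (w ξ - if U ≤ kerv ξ then w ξ else 0) * (2 * δ * mass μ U) ≤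
      ∑ ξ, w ξ * ∑ y, if y ∈ U then (if ξ ⬝ᵥ y = 0 then 0 else μ y) else 0 := by
    apply Finset.sum_le_sum
    intro ξ _
    by_cases hξ : U ≤ kerv ξ
    · rw [if_pos hξ, sub_self, zero_mul]
      apply mul_nonneg (hw ξ)
      apply Finset.sum_nonneg
      intro y _
      have := h1 y
      split_ifs <;> linarith
    · rw [if_neg hξ, sub_zero]
      exact mul_le_mul_of_nonneg_left (hcut ξ hξ) (hw ξ)
  have hswap : (∑ ξ, w ξ * ∑ y, if y ∈ U then (if ξ ⬝ᵥ y = 0 then 0 else μ y) else 0) ≤
      δ * mass μ U := by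
    simp only [Finset.mul_sum]
    rw [Finset.sum_comm]
    unfold mass
    rw [Finset.mul_sum]
    apply Finset.sum_le_sum
    intro y _
    by_cases hy : y ∈ U
    · simp only [if_pos hy]
      have e : (∑ ξ, w ξ * if ξ ⬝ᵥ y = 0 then 0 else μ y) = oddW w y * μ y := by
        unfold oddW
        rw [Finset.sum_mul]
        apply Finset.sum_congr rfl
        intro ξ _
        split_ifs <;> simp
      rw [e]
      by_cases h0 : μ y = 0
      · rw [h0]; simp
      · exact mul_le_mul_of_nonneg_right (hcon y (h3 y h0).1) (h1 y)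
    · simp [hy]
  rw [← Finset.sum_mul, Finset.sum_sub_distrib, hw1] at hsum
  change (1 - perpW w U) * _ ≤ _ at hsum
  have hbigU : 1 / 2 ≤ perpW w U := by
    have hdm : 0 < δ * mass μ U := mul_pos hδ hpos
    nlinarith
  have := h4 U hbigU
  linarith

end Pool.Agent.Work.MP_cf8024_co
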