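import Mathlib
import Pool.Agent.Work.MP_cf8024_co.Blocking

/-!
A Poincare inequality for blocking sets, and the sumset theorem at density one half.
-/

set_option autoImplicit false

open Finset Module Pointwise

namespace Pool.Agent.Work.MP_cf8024_co

variable {n : ℕ}

/-- The real character attached to `ξ`. -/
noncomputable def chi (ξ x : Fin n → ZMod 2) : ℝ := if ξ ⬝ᵥ x = 0 then 1 else -1

theorem chi_add (ξ x y : Fin n → ZMod 2) : chi ξ (x + y) = chi ξ x * chi ξ y := by
  unfold chi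
  rw [dotProduct_add]
  rcases zmod2_cases (ξ ⬝ᵥ x) with h | h <;> rcases zmod2_cases (ξ ⬝ᵥ y) with h' | h' <;>
    rw [h, h'] <;> simp
  decide

theorem chi_comm (ξ x : Fin n → ZMod 2) : chi ξ x = chi x ξ := by
  unfold chi; rw [dotProduct_comm]

theorem card_cube : (Fintype.card (Fin n → ZMod 2) : ℝ) = 2 ^ n := by
  simp

theorem sum_chi (ξ : Fin n → ZMod 2) : ∑ x, chi ξ x = if ξ = 0 then 2 ^ n else 0 := by
  split_ifs with h
  · subst h
    simp [chi]
  · obtain ⟨i, hi⟩ := Function.ne_iff.mp h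
    have h1 : chi ξ (Pi.single i 1) = -1 := by
      unfold chi
      rw [if_neg]
      simpa using hi
    have h2 : ∑ x, chi ξ x = ∑ x, chi ξ (x + Pi.single i 1) :=
      (Fintype.sum_equiv (Equiv.addRight (Pi.single i 1)) _ _ (fun _ => rfl)).symm
    simp only [chi_add, h1, mul_neg, mul_one, Finset.sum_neg_distrib] at h2
    linarith

theorem add_self' (x : Fin n → ZMod 2) : x + x = 0 := by
  funext i
  exact CharTwo.add_self_eq_zero _

theorem add_add_eq_zero (x x' y : Fin n → ZMod 2) : x + x' + y = 0 ↔ x' = x + y := by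
  constructor
  · intro h
    have : x' = x + y + (x + x' + y) := by
      have e : x + y + (x + x' + y) = x' + (x + x) + (y + y) := by abel
      rw [e, add_self', add_self']; simp
    rw [this, h, add_zero]
  · rintro rfl
    have e : x + (x + y) + y = (x + x) + (y + y) := by abel
    rw [e, add_self', add_self']; simp

/-- The unnormalised Fourier transform. -/
noncomputable def four (F : (Fin n → ZMod 2) → ℝ) (ξ : Fin n → ZMod 2) : ℝ :=
  ∑ x, F x * chi ξ x

theorem autocorr (F : (Fin n → ZMod 2) → ℝ) (y : Fin n → ZMod 2) :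
    ∑ ξ, four F ξ ^ 2 * chi ξ y = 2 ^ n * ∑ x, F x * F (x + y) := by
  have e : ∀ ξ, four F ξ ^ 2 * chi ξ y = ∑ x, ∑ x', F x * F x' * chi (x + x' + y) ξ := by
    intro ξ
    rw [sq, four, Finset.sum_mul_sum, Finset.sum_mul]
    apply Finset.sum_congr rfl
    intro x _
    rw [Finset.sum_mul]
    apply Finset.sum_congr rfl
    intro x' _
    rw [chi_comm (x + x' + y), chi_add, chi_add]
    ring
  simp only [e]
  rw [Finset.sum_comm, Finset.mul_sum]
  apply Finset.sum_congr rfl
  intro x _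
  rw [Finset.sum_comm]
  simp only [← Finset.mul_sum, sum_chi, add_add_eq_zero]
  rw [Finset.sum_eq_single (x + y)]
  · simp; ring
  · intro b _ hb; simp [hb]
  · simp

/-- The energy of `F` in direction `y`. -/
noncomputable def energy (F : (Fin n → ZMod 2) → ℝ) (y : Fin n → ZMod 2) : ℝ :=
  ∑ x, (F (x + y) - F x) ^ 2

theorem energy_eq (F : (Fin n → ZMod 2) → ℝ) (y : Fin n → ZMod 2) :
    2 ^ n * energy F y = 2 * ∑ ξ, four F ξ ^ 2 * (1 - chi ξ y) := by
  have h0 := autocorr F 0
  have h1 := autocorr F y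
  have h2 : ∑ x, F (x + y) ^ 2 = ∑ x, F x ^ 2 :=
    Fintype.sum_equiv (Equiv.addRight y) _ _ (fun _ => rfl)
  have h3 : energy F y = 2 * ∑ x, F x * F (x + 0) - 2 * ∑ x, F x * F (x + y) := by
    have : ∀ x, (F (x + y) - F x) ^ 2 = F (x + y) ^ 2 + F x ^ 2 - 2 * (F x * F (x + y)) := by
      intro x; ring
    unfold energy
    simp only [this, Finset.sum_sub_distrib, Finset.sum_add_distrib, h2, ← Finset.mul_sum,
      add_zero, ← sq]
    ring
  have h4 : ∀ ξ : Fin n → ZMod 2, chi ξ 0 = 1 := by intro ξ; simp [chi]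
  simp only [h4, mul_one] at h0
  simp only [mul_sub, mul_one, Finset.sum_sub_distrib]
  rw [h3, h0, h1]
  ring

theorem sum_energy (F : (Fin n → ZMod 2) → ℝ) :
    ∑ y, energy F y = 2 * ∑ ξ, if ξ = 0 then 0 else four F ξ ^ 2 := by
  have hN : (0 : ℝ) < 2 ^ n := by positivity
  apply mul_left_cancel₀ hN.ne'
  rw [Finset.mul_sum]
  simp only [energy_eq]
  rw [← Finset.mul_sum, Finset.sum_comm]
  simp only [← Finset.mul_sum, Finset.sum_sub_distrib, sum_chi, Finset.sum_const, Finset.card_univ,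
    nsmul_eq_mul, card_cube, mul_one]
  rw [mul_left_comm, Finset.mul_sum (a := (2 : ℝ) ^ n)]
  congr 1
  apply Finset.sum_congr rfl
  intro ξ _
  split_ifs <;> ring

/-- The Poincare inequality for a blocking set. -/
theorem poincare {C : ℕ} {Y : Finset (Fin n → ZMod 2)} (hY : Blocking C Y)
    (δ : ℝ) (hδ : 0 < δ) (hδ2 : 2 * δ < 1) (hC : C * δ ≤ 1 / 4)
    (hbig : (7 / 8 : ℝ) ^ C < (1 - 2 * δ) ^ n) (F : (Fin n → ZMod 2) → ℝ)
    (hF : ∀ y ∈ Y, ∀ x, (F (x + y) - F x) ^ 2 ≤ 1) :
    2 * δ * ∑ y, energy F y ≤ (2 ^ n) ^ 2 := by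
  set T := ∑ ξ, if ξ = 0 then 0 else four F ξ ^ 2 with hT
  have hnn : ∀ ξ, 0 ≤ (if ξ = 0 then 0 else four F ξ ^ 2) := by
    intro ξ; split_ifs <;> positivity
  have hT0 : 0 ≤ T := Finset.sum_nonneg fun ξ _ => hnn ξ
  rw [sum_energy, ← hT]
  rcases hT0.eq_or_lt with h | h
  · rw [← h]; simp
  obtain ⟨y, hy, hodd⟩ := exists_odd hY (fun ξ => (if ξ = 0 then 0 else four F ξ ^ 2) / T)
    (fun ξ => div_nonneg (hnn ξ) hT0) (by simp)
    (by rw [← Finset.sum_div, ← hT, div_self h.ne']) δ hδ hδ2 hC hbig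
  have e1 : 2 ^ n * energy F y = 4 * T * oddW (fun ξ => (if ξ = 0 then 0 else four F ξ ^ 2) / T) y := by
    rw [energy_eq, oddW, Finset.mul_sum, Finset.mul_sum]
    apply Finset.sum_congr rfl
    intro ξ _
    unfold chi
    by_cases h1 : ξ ⬝ᵥ y = 0
    · simp [h1]
    · have : ξ ≠ 0 := by rintro rfl; simp at h1
      simp only [if_neg h1, if_neg this]
      field_simp
      ring
  have e2 : energy F y ≤ 2 ^ n := by
    calc energy F y ≤ ∑ _x : Fin n → ZMod 2, (1 : ℝ) := Finset.sum_le_sum fun x _ => hF y hy x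
      _ = 2 ^ n := by simp
  have hN : (0 : ℝ) < 2 ^ n := by positivity
  nlinarith [mul_lt_mul_of_pos_left hodd h]

/-- Level sets growing by `Y` at each step cannot stay in the middle range for long. -/
theorem levels {C : ℕ} {Y : Finset (Fin n → ZMod 2)} (hY : Blocking C Y)
    (δ : ℝ) (hδ : 0 < δ) (hδ2 : 2 * δ < 1) (hC : C * δ ≤ 1 / 4)
    (hbig : (7 / 8 : ℝ) ^ C < (1 - 2 * δ) ^ n) (B : ℕ → Finset (Fin n → ZMod 2))
    (hmono : Monotone B) (hB : ∀ k, ∀ x ∈ B k, ∀ y ∈ Y, x + y ∈ B (k + 1)) (k L : ℕ) :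
    2 * δ * ((B k).card * (2 ^ n - (B (k + L)).card) * L ^ 2) ≤ (2 ^ n) ^ 2 := by
  classical
  let f : (Fin n → ZMod 2) → ℕ := fun x => #{j ∈ range L | x ∉ B (k + j)}
  have hlip : ∀ y ∈ Y, ∀ x, f (x + y) ≤ f x + 1 := by
    intro y hy x
    have : ({j ∈ range L | x + y ∉ B (k + j)} : Finset ℕ) ⊆
        insert 0 (({j ∈ range L | x ∉ B (k + j)} : Finset ℕ).image (· + 1)) := by
      intro j hj
      simp only [Finset.mem_filter, Finset.mem_range] at hj
      rcases j with _ | j
      · exact Finset.mem_insert_self _ _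
      · apply Finset.mem_insert_of_mem
        refine Finset.mem_image.mpr ⟨j, ?_, rfl⟩
        simp only [Finset.mem_filter, Finset.mem_range]
        exact ⟨by omega, fun h => hj.2 (hB _ x h y hy)⟩
    exact (Finset.card_le_card this).trans
      ((Finset.card_insert_le _ _).trans (Nat.add_le_add_right Finset.card_image_le 1))
  have hP := poincare hY δ hδ hδ2 hC hbig (fun x => (f x : ℝ)) (by
    intro y hy x
    have a := hlip y hy x
    have b := hlip y hy (x + y)
    rw [add_assoc, add_self', add_zero] at b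
    have a' : (f (x + y) : ℝ) ≤ f x + 1 := by exact_mod_cast a
    have b' : (f x : ℝ) ≤ f (x + y) + 1 := by exact_mod_cast b
    nlinarith)
  refine le_trans (mul_le_mul_of_nonneg_left ?_ (by positivity)) hP
  have hin : ∀ x ∈ B k, f x = 0 := by
    intro x hx
    simp only [f, Finset.card_eq_zero, Finset.filter_eq_empty_iff, not_not]
    intro j _
    exact hmono (Nat.le_add_right k j) hx
  have hout : ∀ x ∈ (B (k + L))ᶜ, f x = L := by
    intro x hx
    simp only [f]
    rw [Finset.filter_true_of_mem, Finset.card_range]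
    intro j hj h
    have := Finset.mem_range.mp hj
    exact Finset.mem_compl.mp hx (hmono (by omega : k + j ≤ k + L) h)
  have hc : ((B (k + L))ᶜ.card : ℝ) = 2 ^ n - (B (k + L)).card := by
    rw [Finset.card_compl, Nat.cast_sub (Finset.card_le_univ _), card_cube]
  unfold energy
  rw [Finset.sum_comm, ← hc]
  have e : ∀ x : Fin n → ZMod 2, ∑ y, ((f (x + y) : ℝ) - f x) ^ 2 =
      ∑ x', ((f x' : ℝ) - f x) ^ 2 := fun x =>
    Fintype.sum_equiv (Equiv.addLeft x) _ _ (fun _ => rfl)
  simp only [e]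
  calc ((B k).card : ℝ) * (B (k + L))ᶜ.card * L ^ 2
      = ∑ x ∈ B k, ∑ x' ∈ (B (k + L))ᶜ, ((f x' : ℝ) - f x) ^ 2 := by
        rw [Finset.sum_congr rfl (g := fun _ => ((B (k + L))ᶜ.card : ℝ) * L ^ 2)]
        · simp [mul_assoc]
        · intro x hx
          rw [Finset.sum_congr rfl (g := fun _ => (L : ℝ) ^ 2)]
          · simp
          · intro x' hx'
            rw [hin x hx, hout x' hx']; simp
    _ ≤ ∑ x ∈ B k, ∑ x', ((f x' : ℝ) - f x) ^ 2 := by
        apply Finset.sum_le_sum
        intro x _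
        exact Finset.sum_le_sum_of_subset_of_nonneg (Finset.subset_univ _)
          (fun _ _ _ => sq_nonneg _)
    _ ≤ ∑ x, ∑ x', ((f x' : ℝ) - f x) ^ 2 :=
        Finset.sum_le_sum_of_subset_of_nonneg (Finset.subset_univ _)
          (fun _ _ _ => Finset.sum_nonneg fun _ _ => sq_nonneg _)

/-- Vertex expansion: a set of density at most one half expands under a blocking set. -/
theorem expansion {C : ℕ} {Y : Finset (Fin n → ZMod 2)} (hY : Blocking C Y) (h0 : 0 ∈ Y)
    (δ : ℝ) (hδ : 0 < δ) (hδ2 : 2 * δ < 1) (hC : C * δ ≤ 1 / 4)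
    (hbig : (7 / 8 : ℝ) ^ C < (1 - 2 * δ) ^ n) (A : Finset (Fin n → ZMod 2)) (hA : A.Nonempty)
    (hA2 : 2 * (A.card : ℝ) ≤ 2 ^ n) (η : ℝ) (hη : 0 ≤ η) (hη1 : η ≤ 1)
    (hAY : ((A + Y).card : ℝ) ≤ (1 + η) * A.card) (L : ℕ) (hL : η * L ≤ 1 / 3) :
    δ * L ^ 2 ≤ 8 := by
  classical
  obtain ⟨A', hA', hmin⟩ := Finset.exists_min_image (A.powerset.erase ∅)
    (fun U => ((U + Y).card : ℝ) / U.card)
    ⟨A, Finset.mem_erase.mpr ⟨hA.ne_empty, Finset.mem_powerset_self A⟩⟩
  obtain ⟨hne, hsub⟩ := Finset.mem_erase.mp hA'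
  rw [Finset.mem_powerset] at hsub
  have hA'pos : (0 : ℝ) < A'.card := by
    exact_mod_cast (Finset.nonempty_iff_ne_empty.mpr hne).card_pos
  have hApos : (0 : ℝ) < A.card := by exact_mod_cast hA.card_pos
  have hratio : ((A' + Y).card : ℝ) ≤ (1 + η) * A'.card := by
    have := hmin A (Finset.mem_erase.mpr ⟨hA.ne_empty, Finset.mem_powerset_self A⟩)
    rw [← div_le_iff₀ hApos] at hAY
    exact (div_le_iff₀ hA'pos).mp (this.trans hAY)
  have hpet : ∀ U ⊆ A', (A' + Y).card * U.card ≤ (U + Y).card * A'.card := by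
    intro U hU
    by_cases hU0 : U = ∅
    · simp [hU0]
    have hUpos : (0 : ℝ) < U.card := by
      exact_mod_cast (Finset.nonempty_iff_ne_empty.mpr hU0).card_pos
    have := hmin U (Finset.mem_erase.mpr ⟨hU0, Finset.mem_powerset.mpr (hU.trans hsub)⟩)
    rw [div_le_div_iff₀ hA'pos hUpos] at this
    exact_mod_cast this
  let B : ℕ → Finset (Fin n → ZMod 2) := fun k => A' + k • Y
  have hsucc : ∀ k, B (k + 1) = B k + Y := by
    intro k; simp only [B, succ_nsmul, add_assoc]
  have hB : ∀ k, ∀ x ∈ B k, ∀ y ∈ Y, x + y ∈ B (k + 1) := by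
    intro k x hx y hy
    rw [hsucc]; exact Finset.add_mem_add hx hy
  have hmono : Monotone B := by
    apply monotone_nat_of_le_succ
    intro k x hx
    simpa using hB k x hx 0 h0
  have hB0 : B 0 = A' := by simp [B]
  have hgrow : ∀ k, ((B (k + 1)).card : ℝ) ≤ (1 + η) * (B k).card := by
    intro k
    have h := Finset.pluennecke_petridis_inequality_add (k • Y) hpet
    have e1 : k • Y + A' + Y = B (k + 1) := by rw [hsucc, add_comm (k • Y) A']
    have e2 : k • Y + A' = B k := add_comm _ _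
    rw [e1, e2] at h
    have h' : ((B (k + 1)).card : ℝ) * A'.card ≤ (A' + Y).card * (B k).card := by
      exact_mod_cast h
    have : ((B (k + 1)).card : ℝ) * A'.card ≤ ((1 + η) * (B k).card) * A'.card := by
      have := mul_le_mul_of_nonneg_right hratio (Nat.cast_nonneg (B k).card : (0 : ℝ) ≤ _)
      linarith
    exact le_of_mul_le_mul_right this hA'pos
  have hlev := levels hY δ hδ hδ2 hC hbig B hmono hB
  have hN : (0 : ℝ) < 2 ^ n := by positivity
  set N : ℝ := 2 ^ n with hNdef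
  have hex : ∃ k, N ≤ 4 * (B k).card := by
    by_contra hcon
    push Not at hcon
    obtain ⟨M, hM⟩ := exists_nat_gt (N / δ + 1)
    have h1 := hlev 0 M
    have h2 := hcon (0 + M)
    have h3 : (1 : ℝ) ≤ (B 0).card := by
      rw [hB0]; exact_mod_cast (Finset.nonempty_iff_ne_empty.mpr hne).card_pos
    have h4 : N < δ * M := by
      have : N / δ < M := by linarith
      rwa [div_lt_iff₀' hδ] at this
    have h5 : (1 : ℝ) ≤ M := by
      have : 0 < N / δ := div_pos hN hδ
      linarith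
    have h6 : N / 2 * M ≤ (B 0).card * (N - (B (0 + M)).card) * M ^ 2 := by
      have a : N / 2 ≤ (B 0).card * (N - (B (0 + M)).card) := by nlinarith
      have b : (M : ℝ) ≤ M ^ 2 := by nlinarith
      exact mul_le_mul a b (by linarith) (by linarith)
    nlinarith
  obtain ⟨k, hk1, hk2⟩ : ∃ k, N ≤ 4 * (B k).card ∧ 2 * ((B k).card : ℝ) ≤ N := by
    refine ⟨Nat.find hex, Nat.find_spec hex, ?_⟩
    rcases h : Nat.find hex with _ | j
    · rw [hB0]
      have : (A'.card : ℝ) ≤ A.card := by exact_mod_cast Finset.card_le_card hsub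
      linarith
    · have a := Nat.find_min hex (m := j) (by omega)
      have b := hgrow j
      have c : (0 : ℝ) ≤ (B j).card := Nat.cast_nonneg _
      push Not at a
      nlinarith
  have hiter : ∀ j : ℕ, η * j ≤ 1 → ((B (k + j)).card : ℝ) * (1 - η * j) ≤ (B k).card := by
    intro j
    induction j with
    | zero => intro _; simp
    | succ j ih =>
      intro hj
      push_cast at hj ⊢
      have a := ih (by nlinarith)
      have b := hgrow (k + j)
      have c : (0 : ℝ) ≤ (B (k + j)).card := Nat.cast_nonneg _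
      have d : (1 + η) * (1 - η * (j + 1)) ≤ 1 - η * j := by
        have : 0 ≤ η * η * (j + 1) := by positivity
        nlinarith
      calc ((B (k + (j + 1))).card : ℝ) * (1 - η * (j + 1))
          ≤ ((1 + η) * (B (k + j)).card) * (1 - η * (j + 1)) :=
            mul_le_mul_of_nonneg_right b (by linarith)
        _ = (B (k + j)).card * ((1 + η) * (1 - η * (j + 1))) := by ring
        _ ≤ (B (k + j)).card * (1 - η * j) := mul_le_mul_of_nonneg_left d c
        _ ≤ (B k).card := a
  have hend : 4 * ((B (k + L)).card : ℝ) ≤ 3 * N := by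
    have a := hiter L (by linarith)
    have c : (0 : ℝ) ≤ (B (k + L)).card := Nat.cast_nonneg _
    nlinarith
  have h1 := hlev k L
  have h2 : N / 4 * (N / 4) ≤ (B k).card * (N - (B (k + L)).card) :=
    mul_le_mul (by linarith) (by linarith) (by linarith) (by linarith)
  have h3 : 2 * δ * (N / 4 * (N / 4) * L ^ 2) ≤ N ^ 2 := by
    refine le_trans ?_ h1
    exact mul_le_mul_of_nonneg_left (mul_le_mul_of_nonneg_right h2 (by positivity))
      (by positivity)
  have h4 : (δ * L ^ 2) * N ^ 2 ≤ 8 * N ^ 2 := by nlinarith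
  exact le_of_mul_le_mul_right h4 (by positivity)

end Pool.Agent.Work.MP_cf8024_co
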