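import Mathlib
import Pool.Agent.Work.MP_cf8024_co.Main

set_option autoImplicit false
open Pointwise

namespace Pool.Agent.Work.MP_cf8024_co

/-- For every K>0 there is C such that for all n≥1, every nonempty A in F_2^n with density at least 1/2−K/√n has sumset A+A containing a coset x+V of a subspace V of codimension at most C. -/
theorem coset_version :
    ∀ K : ℝ, 0 < K → ∃ C : ℕ, ∀ n : ℕ, 1 ≤ n →
      ∀ A : Finset (Fin n → ZMod 2), A.Nonempty →
        (1 / 2 : ℝ) - K / Real.sqrt (n : ℝ) ≤ (A.card : ℝ) / (2 : ℝ) ^ n →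
          ∃ V : Submodule (ZMod 2) (Fin n → ZMod 2), ∃ x : Fin n → ZMod 2,
            n ≤ Module.finrank (ZMod 2) V + C ∧
            ∀ v ∈ V, x + v ∈ A + A := by
  intro K hK
  set c : ℝ := 20736 * K ^ 2 with hc
  have hc0 : 0 < c := by positivity
  obtain ⟨C1, hC1⟩ : ∃ C1 : ℕ, (7 / 8 : ℝ) ^ C1 < Real.exp (-(4 * c)) :=
    exists_pow_lt_of_lt_one (Real.exp_pos _) (by norm_num)
  refine ⟨C1 + ⌈4 * c * C1 + 4 * c + 576 * K ^ 2⌉₊, ?_⟩
  intro n hn A hA hdens
  by_cases hsmall : n ≤ C1 + ⌈4 * c * C1 + 4 * c + 576 * K ^ 2⌉₊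
  · obtain ⟨a, ha⟩ := hA
    refine ⟨⊥, a + a, by omega, ?_⟩
    intro v hv
    rw [(Submodule.mem_bot _).mp hv, add_zero]
    exact Finset.add_mem_add ha ha
  have hlarge : 4 * c * C1 + 4 * c + 576 * K ^ 2 ≤ (n : ℝ) := by
    have h1 := Nat.le_ceil (4 * c * C1 + 4 * c + 576 * K ^ 2)
    have h2 : (⌈4 * c * C1 + 4 * c + 576 * K ^ 2⌉₊ : ℝ) ≤ n := by
      exact_mod_cast (by omega : ⌈4 * c * C1 + 4 * c + 576 * K ^ 2⌉₊ ≤ n)
    linarith
  by_contra hcon
  push Not at hcon
  have hblk : ∀ V : Submodule (ZMod 2) (Fin n → ZMod 2), n ≤ Module.finrank (ZMod 2) V + C1 →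
      ∀ x : Fin n → ZMod 2, ∃ v ∈ V, x + v ∉ A + A := fun V hV x => hcon V x (by omega)
  obtain ⟨x0, -, hx0⟩ := hblk ⊤ (by rw [Pool.Agent.Work.MP_cf8024_co.finrank_top']; omega) 0
  rw [zero_add] at hx0
  let Y : Finset (Fin n → ZMod 2) := Finset.univ.filter fun y => y + x0 ∉ A + A
  have memY : ∀ y, y ∈ Y ↔ y + x0 ∉ A + A := by intro y; simp [Y]
  have hY : Pool.Agent.Work.MP_cf8024_co.Blocking C1 Y := by
    intro V hV x
    obtain ⟨v, hv, h⟩ := hblk V hV (x + x0)
    exact ⟨v, hv, (memY _).mpr (by rwa [add_right_comm])⟩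
  have h0 : (0 : Fin n → ZMod 2) ∈ Y := (memY _).mpr (by rwa [zero_add])
  have hn0 : (0 : ℝ) < n := by exact_mod_cast hn
  have hC1nn : (0 : ℝ) ≤ C1 := Nat.cast_nonneg _
  have hcC : 0 ≤ c * C1 := by positivity
  have hK2 : 0 ≤ K ^ 2 := by positivity
  set s := Real.sqrt (n : ℝ) with hs
  have hs0 : 0 < s := Real.sqrt_pos.mpr hn0
  have hss : s ^ 2 = n := Real.sq_sqrt hn0.le
  have hsK : 24 * K ≤ s := by
    apply Real.le_sqrt_of_sq_le
    nlinarith
  have hN : (0 : ℝ) < 2 ^ n := by positivity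
  have hdisj : ((A + Y).card : ℝ) + A.card ≤ 2 ^ n := by
    have hd : Disjoint (A + Y) (A.image (· + x0)) := by
      rw [Finset.disjoint_left]
      intro z hz hz'
      obtain ⟨a, ha, y, hy, rfl⟩ := Finset.mem_add.mp hz
      obtain ⟨b, hb, hab⟩ := Finset.mem_image.mp hz'
      apply (memY y).mp hy
      have : y + x0 = a + b := by
        have e1 : y + x0 = (a + y) + (a + x0) := by
          have : (a + y) + (a + x0) = (a + a) + (y + x0) := by abel
          rw [this, Pool.Agent.Work.MP_cf8024_co.add_self', zero_add]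
        have e2 : (b + x0) + (a + x0) = a + b := by
          have : (b + x0) + (a + x0) = (a + b) + (x0 + x0) := by abel
          rw [this, Pool.Agent.Work.MP_cf8024_co.add_self', add_zero]
        rw [e1, ← hab, e2]
      rw [this]
      exact Finset.add_mem_add ha hb
    have h1 := Finset.card_le_univ ((A + Y) ∪ A.image (· + x0))
    rw [Finset.card_union_of_disjoint hd, Finset.card_image_of_injective _ (add_left_injective x0)]
      at h1
    rw [← Pool.Agent.Work.MP_cf8024_co.card_cube]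
    exact_mod_cast h1
  have hAle : (A.card : ℝ) ≤ (A + Y).card := by
    exact_mod_cast Finset.card_le_card_add_right ⟨0, h0⟩
  have hε : K / s ≤ 1 / 24 := by
    rw [div_le_div_iff₀ hs0 (by norm_num)]; linarith
  have hε0 : 0 < K / s := div_pos hK hs0
  rw [le_div_iff₀ hN] at hdens
  have hδ : c / n ≤ 1 / 4 := by
    rw [div_le_div_iff₀ hn0 (by norm_num)]; nlinarith
  have hδ0 : 0 < c / n := div_pos hc0 hn0
  have hbig : (7 / 8 : ℝ) ^ C1 < (1 - 2 * (c / n)) ^ n := by
    refine hC1.trans_le ?_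
    have e : Real.exp (-(4 * c)) = Real.exp (-(4 * (c / n))) ^ n := by
      rw [← Real.exp_nat_mul]; congr 1; field_simp
    rw [e]
    apply pow_le_pow_left₀ (Real.exp_pos _).le
    rw [Real.exp_neg, inv_le_comm₀ (Real.exp_pos _) (by linarith)]
    refine le_trans ?_ (Real.add_one_le_exp _)
    rw [inv_le_iff_one_le_mul₀ (by linarith)]
    nlinarith
  have key := Pool.Agent.Work.MP_cf8024_co.expansion hY h0 (c / n) hδ0 (by linarith)
    (by
      rw [mul_div_assoc', div_le_div_iff₀ hn0 (by norm_num)]; nlinarith)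
    hbig A hA (by linarith) (8 * (K / s)) (by positivity) (by linarith)
    (by
      have h1 : 2 ^ n ≤ (2 + 8 * (K / s)) * ((1 / 2 - K / s) * 2 ^ n) := by
        have : 1 ≤ (2 + 8 * (K / s)) * (1 / 2 - K / s) := by nlinarith
        nlinarith
      have h2 : (2 + 8 * (K / s)) * ((1 / 2 - K / s) * 2 ^ n) ≤ (2 + 8 * (K / s)) * A.card :=
        mul_le_mul_of_nonneg_left hdens (by positivity)
      linarith)
    ⌊s / (24 * K)⌋₊
    (by
      have h1 : (⌊s / (24 * K)⌋₊ : ℝ) ≤ s / (24 * K) := Nat.floor_le (by positivity)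
      calc 8 * (K / s) * (⌊s / (24 * K)⌋₊ : ℝ) ≤ 8 * (K / s) * (s / (24 * K)) :=
            mul_le_mul_of_nonneg_left h1 (by positivity)
        _ = 1 / 3 := by field_simp; norm_num)
  have hge1 : 1 ≤ s / (24 * K) := by
    rw [le_div_iff₀ (by positivity)]; linarith
  have hfl : s / (48 * K) ≤ (⌊s / (24 * K)⌋₊ : ℝ) := by
    have h1 := Nat.lt_floor_add_one (s / (24 * K))
    have h2 : (1 : ℝ) ≤ (⌊s / (24 * K)⌋₊ : ℝ) := by
      exact_mod_cast (Nat.one_le_floor_iff _).mpr hge1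
    have h3 : s / (48 * K) = s / (24 * K) / 2 := by field_simp; norm_num
    linarith
  have h9 : c / n * (s / (48 * K)) ^ 2 = 9 := by
    rw [hc, ← hss]; field_simp; norm_num
  have : c / n * (s / (48 * K)) ^ 2 ≤ c / n * (⌊s / (24 * K)⌋₊ : ℝ) ^ 2 :=
    mul_le_mul_of_nonneg_left (pow_le_pow_left₀ (by positivity) hfl 2) hδ0.le
  linarith

end Pool.Agent.Work.MP_cf8024_co
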